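import Pool.Agent.Lib.LU3.Defs

/-!
# DefectTwo, core, row R6: pairs of frames

`S` is a frame of `L₀`, `C` a frame of `N ⊇ L₀` with the same group of exponents.  After finitely
many T-steps (and at most one T0-step) the parameter `y` of `S` has content `0` and order `≥ 1`
in `C`.
-/

set_option autoImplicit false

open Polynomial

namespace Pool.Agent.LU3.Pr

open Pool.Agent.H15JM (RVal)
open Pool.Agent.LU1

universe u

variable {k Ω : Type u} [Field k] [Field Ω] [Algebra k Ω] {v : RVal Ω} {r : ℕ}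

/-! ### changing the monomials -/

/-- A frame with new monomials, which are units times the old ones. -/
theorem exists_changeChi (C : BF k v) (χ' : ℝ → Ω)
    (hadd : ∀ γ ∈ C.Γ, ∀ δ ∈ C.Γ, χ' (γ + δ) = χ' γ * χ' δ)
    (hun : ∀ γ ∈ C.Γ, C.Un (χ' γ / C.χ γ)) :
    ∃ C' : BF k v, C'.Γ = C.Γ ∧ C'.χ = χ' ∧ C'.y = C.y ∧ C'.R = C.R := by
  classical
  have hne : ∀ γ ∈ C.Γ, χ' γ ≠ 0 := by
    intro γ hγ h0
    have := (hun γ hγ).2.1
    rw [h0, zero_div] at this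
    exact this rfl
  have hval : ∀ γ ∈ C.Γ, v (χ' γ) = γ := by
    intro γ hγ
    have h1 := (hun γ hγ).2.2
    rw [v.map_div (hne γ hγ) (C.χ_ne γ hγ), C.χ_val γ hγ] at h1
    linarith
  have hmem : ∀ γ ∈ C.Γ, 0 ≤ γ → χ' γ ∈ C.R := by
    intro γ hγ h0
    have h1 := C.R.mul_mem (hun γ hγ).1 (C.χ_mem γ hγ h0)
    rwa [div_mul_cancel₀ _ (C.χ_ne γ hγ)] at h1
  have hinv : ∀ γ ∈ C.Γ, C.Un (C.χ γ / χ' γ) := by
    intro γ hγ
    have := (hun γ hγ).inv
    rwa [inv_div] at this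
  -- finitely many generators
  have hfgen : ∃ F : Finset Ω, C.R = locv v (Algebra.adjoin k
      ((F : Set Ω) ∪ χ' '' {γ | γ ∈ C.Γ ∧ 0 ≤ γ})) := by
    obtain ⟨F0, hF0⟩ := C.fgen
    obtain ⟨G, hG⟩ := C.fg
    set F : Finset Ω := F0 ∪ G.image (fun g => χ' g / C.χ g) ∪ G.image (fun g => C.χ g / χ' g)
      with hF
    have hGm : ∀ g ∈ G, g ∈ C.Γ := by
      intro g hg
      rw [← hG]
      exact AddSubgroup.subset_closure hg
    refine ⟨F, le_antisymm ?_ ?_⟩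
    · set T : Set Ω := (F : Set Ω) ∪ χ' '' {γ | γ ∈ C.Γ ∧ 0 ≤ γ} with hT
      have key : ∀ γ ∈ C.Γ, χ' γ / C.χ γ ∈ Algebra.adjoin k T ∧
          C.χ γ / χ' γ ∈ Algebra.adjoin k T := by
        intro γ hγ
        rw [← hG] at hγ
        induction hγ using AddSubgroup.closure_induction with
        | mem g hg =>
          constructor
          · refine Algebra.subset_adjoin (Or.inl ?_)
            simp only [hF, Finset.coe_union, Finset.coe_image]
            exact Or.inl (Or.inr ⟨g, hg, rfl⟩)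
          · refine Algebra.subset_adjoin (Or.inl ?_)
            simp only [hF, Finset.coe_union, Finset.coe_image]
            exact Or.inr ⟨g, hg, rfl⟩
        | zero =>
          have h0 : χ' 0 = 1 := by
            have h := hadd 0 C.Γ.zero_mem 0 C.Γ.zero_mem
            rw [add_zero] at h
            exact (mul_right_cancel₀ (hne 0 C.Γ.zero_mem) (by rw [one_mul]; exact h)).symm
          rw [h0, C.χ_zero, div_one]
          exact ⟨one_mem _, one_mem _⟩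
        | add x y hx hy ihx ihy =>
          rw [hG] at hx hy
          rw [hadd x hx y hy, C.χ_add x hx y hy]
          constructor
          · rw [mul_div_mul_comm]; exact mul_mem ihx.1 ihy.1
          · rw [mul_div_mul_comm]; exact mul_mem ihx.2 ihy.2
        | neg x hx ih =>
          rw [hG] at hx
          have h1 : χ' (-x) = (χ' x)⁻¹ := by
            have h2 := hadd x hx (-x) (C.Γ.neg_mem hx)
            have h0 : χ' 0 = 1 := by
              have h := hadd 0 C.Γ.zero_mem 0 C.Γ.zero_mem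
              rw [add_zero] at h
              exact (mul_right_cancel₀ (hne 0 C.Γ.zero_mem) (by rw [one_mul]; exact h)).symm
            rw [add_neg_cancel, h0] at h2
            exact eq_inv_of_mul_eq_one_right h2.symm
          rw [h1, C.χ_neg hx, inv_div_inv, inv_div_inv]
          exact ⟨ih.2, ih.1⟩
      rw [hF0]
      refine locv_adjoin_le ?_
      rintro f (hf | ⟨γ, ⟨hγ, h0⟩, rfl⟩)
      · refine le_locv _ (Algebra.subset_adjoin (Or.inl ?_))
        simp only [hF, Finset.coe_union]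
        exact Or.inl (Or.inl hf)
      · have h1 : C.χ γ = C.χ γ / χ' γ * χ' γ := by rw [div_mul_cancel₀ _ (hne γ hγ)]
        rw [h1]
        exact (locv v _).mul_mem (le_locv _ (key γ hγ).2)
          (le_locv _ (Algebra.subset_adjoin (Or.inr ⟨γ, ⟨hγ, h0⟩, rfl⟩)))
    · refine locv_le (Algebra.adjoin_le ?_) C.loc
      rintro f (hf | ⟨γ, ⟨hγ, h0⟩, rfl⟩)
      · simp only [hF, Finset.coe_union, Finset.coe_image] at hf
        rcases hf with (hf | ⟨g, hg, rfl⟩) | ⟨g, hg, rfl⟩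
        · rw [SetLike.mem_coe, hF0]
          exact le_locv _ (Algebra.subset_adjoin (Or.inl hf))
        · exact (hun g (hGm g hg)).1
        · exact (hinv g (hGm g hg)).1
      · exact hmem γ hγ h0
  refine ⟨{ Γ := C.Γ, fg := C.fg, full := C.full, χ := χ', χ_ne := hne, χ_add := hadd,
            χ_val := hval, y := C.y, y_ne := C.y_ne, y_pos := C.y_pos, R := C.R,
            nonneg := C.nonneg, loc := C.loc, χ_mem := hmem, y_mem := C.y_mem, fgen := hfgen,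
            gen := ?_, alg := C.alg }, rfl, rfl, rfl, rfl⟩
  intro f hf hv
  obtain ⟨γ, hγ, h0, a, ha, b, hb, h1⟩ := C.gen f hf hv
  refine ⟨γ, hγ, h0, C.χ γ / χ' γ * a, C.R.mul_mem (hinv γ hγ).1 ha, b, hb, ?_⟩
  rw [h1, ← mul_assoc, mul_div_cancel₀ _ (hne γ hγ)]

/-! ### rational frames stay rational -/

theorem brat_tstep {B B' : BF k v} (hB : BRat B) (h : TStep B B') : BRat B' := by
  obtain ⟨q, c, s, h⟩ := h
  unfold BRat
  refine le_antisymm ?_ ?_
  · set T : Set Ω := B'.χ '' {γ | γ ∈ B'.Γ ∧ 0 ≤ γ} ∪ {B'.y} with hT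
    have hw : B.w q ∈ locv v (Algebra.adjoin k T) := by
      have h1 : B.w q = B'.y + algebraMap k Ω c := by rw [h.y_eq]; ring
      rw [h1]
      exact le_locv _ (add_mem (Algebra.subset_adjoin (Or.inr rfl))
        ((Algebra.adjoin k T).algebraMap_mem c))
    have hwi : (B.w q)⁻¹ ∈ locv v (Algebra.adjoin k T) := locv_inv hw h.w_ne h.v_w
    have hwz : ∀ n : ℤ, (B.w q) ^ n ∈ locv v (Algebra.adjoin k T) := by
      intro n
      cases n with
      | ofNat n => simpa using (locv v (Algebra.adjoin k T)).pow_mem hw n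
      | negSucc n =>
        rw [zpow_negSucc, ← inv_pow]
        exact (locv v (Algebra.adjoin k T)).pow_mem hwi _
    have hχ : ∀ γ ∈ B'.Γ, 0 ≤ γ → B'.χ γ ∈ locv v (Algebra.adjoin k T) := fun γ hγ h0 =>
      le_locv _ (Algebra.subset_adjoin (Or.inl ⟨γ, ⟨hγ, h0⟩, rfl⟩))
    rw [h.R_eq]
    refine locv_adjoin_le ?_
    rintro f ((hf | ⟨γ, ⟨hγ, h0⟩, rfl⟩) | rfl)
    · have h1 : B.R ≤ locv v (Algebra.adjoin k T) := by
        rw [hB]
        refine locv_adjoin_le ?_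
        rintro f (⟨γ, ⟨hγ, h0⟩, rfl⟩ | rfl)
        · have h2 := h.χ_mul hγ 0
          rw [zpow_zero, mul_one, Int.cast_zero, zero_mul, add_zero] at h2
          rw [h2]
          exact (locv v _).mul_mem (hχ γ (h.Γ_le hγ) h0) (hwz _)
        · have h2 := h.χ_mul B.Γ.zero_mem 1
          rw [B.χ_zero, one_mul, zpow_one, Int.cast_one, one_mul, zero_add] at h2
          rw [h2]
          exact (locv v _).mul_mem (hχ _ h.β_mem B.y_pos.le) (hwz _)
      exact h1 hf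
    · exact hχ γ hγ h0
    · exact hw
  · refine locv_le (Algebra.adjoin_le ?_) B'.loc
    rintro f (⟨γ, ⟨hγ, h0⟩, rfl⟩ | rfl)
    · exact B'.χ_mem γ hγ h0
    · exact B'.y_mem

theorem brat_reach {B B' : BF k v} (hB : BRat B) (h : Reach B B') : BRat B' := by
  induction h with
  | refl => exact hB
  | tail _ h2 ih => exact brat_tstep ih h2

theorem brat_t0step {B B' : BF k v} {b : ℝ} (hB : BRat B) (h : IsT0Step B B' b) : BRat B' := by
  unfold BRat
  refine le_antisymm ?_ ?_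
  · set T : Set Ω := B'.χ '' {γ | γ ∈ B'.Γ ∧ 0 ≤ γ} ∪ {B'.y} with hT
    have hχ : ∀ γ ∈ B.Γ, 0 ≤ γ → B.χ γ ∈ locv v (Algebra.adjoin k T) := by
      intro γ hγ h0
      rw [← h.χ_eq]
      exact le_locv _ (Algebra.subset_adjoin (Or.inl ⟨γ, ⟨by rw [h.Γ_eq]; exact hγ, h0⟩, rfl⟩))
    have hy : B'.y ∈ locv v (Algebra.adjoin k T) :=
      le_locv _ (Algebra.subset_adjoin (Or.inr rfl))
    rw [h.R_eq]
    refine locv_adjoin_le ?_
    rintro f (hf | rfl)
    · have h1 : B.R ≤ locv v (Algebra.adjoin k T) := by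
        rw [hB]
        refine locv_adjoin_le ?_
        rintro f (⟨γ, ⟨hγ, h0⟩, rfl⟩ | rfl)
        · exact hχ γ hγ h0
        · have h2 : B.y = B.χ b * B'.y := by
            rw [h.y_eq, mul_div_cancel₀ _ (B.χ_ne b h.b_mem)]
          rw [h2]
          exact (locv v _).mul_mem (hχ b h.b_mem h.b_pos.le) hy
      exact h1 hf
    · rw [← h.y_eq]
      exact hy
  · refine locv_le (Algebra.adjoin_le ?_) B'.loc
    rintro f (⟨γ, ⟨hγ, h0⟩, rfl⟩ | rfl)
    · exact B'.χ_mem γ hγ h0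
    · exact B'.y_mem

/-! ### frames inside a bigger frame -/

/-- `B` (a frame of a subfield) sits inside `C`: same exponents, compatible monomials. -/
structure InFrame (B C : BF k v) : Prop where
  Γ_eq : B.Γ = C.Γ
  χ_un : ∀ γ ∈ C.Γ, C.Un (B.χ γ / C.χ γ)
  le : B.R ≤ C.R

namespace InFrame

variable {B C : BF k v}

theorem of_brat (hB : BRat B) (hΓ : B.Γ = C.Γ) (hχ : ∀ γ ∈ C.Γ, C.Un (B.χ γ / C.χ γ))
    (hy : B.y ∈ C.R) : InFrame B C := by
  refine ⟨hΓ, hχ, ?_⟩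
  rw [hB]
  refine locv_le (Algebra.adjoin_le ?_) C.loc
  rintro f (⟨γ, ⟨hγ, h0⟩, rfl⟩ | rfl)
  · rw [hΓ] at hγ
    have h1 := C.R.mul_mem (hχ γ hγ).1 (C.χ_mem γ hγ h0)
    rwa [div_mul_cancel₀ _ (C.χ_ne γ hγ)] at h1
  · exact hy

theorem mono_χ (h : InFrame B C) {γ : ℝ} (hγ : γ ∈ C.Γ) : C.Mono (B.χ γ) :=
  BF.mono_iff.2 ⟨γ, hγ, B.χ γ / C.χ γ, h.χ_un γ hγ, by rw [mul_div_cancel₀ _ (C.χ_ne γ hγ)]⟩

theorem un (h : InFrame B C) {f : Ω} (hf : B.Un f) : C.Un f := ⟨h.le hf.1, hf.2.1, hf.2.2⟩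

theorem mono (h : InFrame B C) {f : Ω} (hf : B.Mono f) : C.Mono f := by
  obtain ⟨γ, hγ, u, hu, rfl⟩ := BF.mono_iff.1 hf
  rw [h.Γ_eq] at hγ
  exact (h.mono_χ hγ).mul (BF.Mono.un (h.un hu))

/-- A T-step of the small frame, if its parameter is a monomial in the big one. -/
theorem tstep (h : InFrame B C) {B' : BF k v} (ht : TStep B B') (hm : C.Mono B.y) :
    InFrame B' C := by
  obtain ⟨q, c, s, ht⟩ := ht
  have hβ : v B.y ∈ C.Γ := hm.2.1
  have hβB : v B.y ∈ B.Γ := by rw [h.Γ_eq]; exact hβ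
  have hΓ : B'.Γ = C.Γ := by
    rw [ht.Γ_eq, ← h.Γ_eq]
    exact sup_eq_left.2 (AddSubgroup.zmultiples_le_of_mem hβB)
  have hwm : C.Mono (B.w q) := by
    have h1 := ht.q_mem
    rw [h.Γ_eq] at h1
    exact (hm.pow q).div (h.mono_χ h1)
  have hw : C.Un (B.w q) := by
    have h1 := hwm.2.2
    rw [ht.v_w, C.χ_zero, div_one] at h1
    exact h1
  have hχm : ∀ γ' ∈ C.Γ, C.Mono (B'.χ γ') := by
    intro γ' hγ'
    rw [← hΓ] at hγ'
    obtain ⟨γ, hγ, l, rfl⟩ := ht.mem_Γ' hγ'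
    rw [ht.χ_eq γ hγ l]
    have hγC : γ ∈ C.Γ := by rw [← h.Γ_eq]; exact hγ
    exact ((h.mono_χ hγC).mul (hm.zpow l)).mul (BF.Mono.un (hw.zpow _))
  have hχun : ∀ γ ∈ C.Γ, C.Un (B'.χ γ / C.χ γ) := by
    intro γ hγ
    have h1 := (hχm γ hγ).2.2
    rwa [B'.χ_val γ (by rw [hΓ]; exact hγ)] at h1
  refine ⟨hΓ, hχun, ?_⟩
  rw [ht.R_eq]
  refine locv_le (Algebra.adjoin_le ?_) C.loc
  rintro f ((hf | ⟨γ, ⟨hγ, h0⟩, rfl⟩) | rfl)
  · exact h.le hf
  · rw [hΓ] at hγ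
    exact (hχm γ hγ).mem (by rw [B'.χ_val γ (by rw [hΓ]; exact hγ)]; exact h0)
  · exact hw.1

end InFrame

/-- Either the process stops or the frame stays inside `C`. -/
theorem reach_alt {S C : BF k v} (hS : InFrame S C) {B' : BF k v} (h : Reach S B') :
    (∃ B : BF k v, Reach S B ∧ InFrame B C ∧ ¬ C.Mono B.y) ∨ InFrame B' C := by
  induction h with
  | refl => exact Or.inr hS
  | @tail B1 B2 h1 h2 ih =>
    rcases ih with ih | ih
    · exact Or.inl ih
    · by_cases hm : C.Mono B1.y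
      · exact Or.inr (ih.tstep h2 hm)
      · exact Or.inl ⟨_, h1, ih, hm⟩

/-- An element of `S.R` divisible by `C.y`. -/
theorem exists_divisible {S C : BF k v} (hle : S.R ≤ C.R) :
    ∃ b ∈ S.R, b ≠ 0 ∧ ∃ c ∈ C.R, b = C.y * c := by
  obtain ⟨q, hq0, hq⟩ := (S.alg C.y).exists_nonzero_coeff_and_aeval_eq_zero
    (mem_nonZeroDivisors_of_ne_zero C.y_ne)
  refine ⟨(q.coeff 0 : Ω), (q.coeff 0).2, fun h => hq0 (Subtype.ext h),
    -(aeval C.y q.divX), ?_, ?_⟩
  · refine C.R.neg_mem ?_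
    rw [aeval_eq_sum_range]
    refine sum_mem fun i _ => ?_
    rw [Algebra.smul_def]
    exact C.R.mul_mem (hle (q.divX.coeff i).2) (C.R.pow_mem C.y_mem i)
  · have h1 : aeval C.y q = aeval C.y (q.divX * X + Polynomial.C (q.coeff 0)) := by
      rw [divX_mul_X_add]
    rw [hq, map_add, map_mul, aeval_X, aeval_C] at h1
    have h2 : algebraMap S.R Ω (q.coeff 0) = ((q.coeff 0 : S.R) : Ω) := rfl
    rw [h2] at h1
    linear_combination -h1

/-- Elements divisible by `y` are not monomials. -/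
theorem not_mono_of_dvd (h : Ctx k v r) {C : BF k v} {b c : Ω} (hb : b ≠ 0) (hc : c ∈ C.R)
    (hbc : b = C.y * c) : ¬ C.Mono b := by
  intro hm
  have hc0 : c ≠ 0 := by
    rintro rfl
    rw [mul_zero] at hbc
    exact hb hbc
  obtain ⟨κ, D, -, h1⟩ := C.rep_exists h hc hc0
  have h2 := C.rep_y.mul h1
  rw [← hbc] at h2
  have h3 := (hm.rep.unique h h2).2
  omega

/-- **Row R6.** -/
theorem exists_pair (p : ℕ) (hp : p.Prime) [CharP k p] (h : Ctx k v r)
    {L₀ : IntermediateField k Ω} {S C : BF k v} (hL : FracIs S.R L₀) (hS : InFrame S C) :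
    ∃ B S' : BF k v, Reach S B ∧ (S' = B ∨ ∃ κ, IsT0Step B S' κ) ∧ InFrame S' C ∧
      ∃ C' : BF k v, C'.Γ = C.Γ ∧ C'.R = C.R ∧ C'.y = C.y ∧ C'.χ = S'.χ ∧
        ∃ e, 1 ≤ e ∧ C.Rep S'.y 0 e ∧ C'.Rep S'.y 0 e := by
  obtain ⟨b, hbS, hb0, c, hc, hbc⟩ := exists_divisible hS.le
  obtain ⟨B1, hr1, hm1⟩ := ML p hp h S L₀ hL {b} (by
    intro f hf
    rw [Finset.mem_singleton] at hf
    rw [hf]
    exact ⟨hL.1 b hbS, hb0⟩)
  have hm1 := hm1 b (Finset.mem_singleton_self b)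
  rcases reach_alt hS hr1 with ⟨B, hr, hB, hnm⟩ | hB
  swap
  · exact absurd (hB.mono hm1) (not_mono_of_dvd h hb0 hc hbc)
  obtain ⟨κ, D, hκ0, hrep⟩ := C.rep_exists h (hB.le B.y_mem) B.y_ne
  have hD : 1 ≤ D := by
    by_contra hcon
    have hD0 : D = 0 := by omega
    rw [hD0] at hrep
    exact hnm hrep.val_zero.2.2
  -- the final frame
  obtain ⟨S', hS'1, hS', hrep'⟩ : ∃ S' : BF k v, (S' = B ∨ ∃ κ, IsT0Step B S' κ) ∧
      InFrame S' C ∧ C.Rep S'.y 0 D := by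
    rcases hκ0.eq_or_lt with hκ | hκ
    · exact ⟨B, Or.inl rfl, hB, by rw [hκ]; exact hrep⟩
    · have hκC : κ ∈ C.Γ := hrep.1
      have hκB : κ ∈ B.Γ := by rw [hB.Γ_eq]; exact hκC
      obtain ⟨S', hS'⟩ := B.exists_t0step h hκB hκ (hrep.val_pos h hD)
      have hrep' : C.Rep S'.y 0 D := by
        obtain ⟨-, u, hu, δ, hδ, hδ0, a, ha, hy⟩ := hrep
        have h1 := (hB.χ_un κ hκC).inv
        rw [inv_div] at h1
        refine ⟨C.Γ.zero_mem, C.χ κ / B.χ κ * u, h1.mul hu, δ, hδ, hδ0, C.χ κ / B.χ κ * a,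
          C.R.mul_mem h1.1 ha, ?_⟩
        rw [hS'.y_eq, hy, C.χ_zero]
        ring
      refine ⟨S', Or.inr ⟨κ, hS'⟩, ⟨by rw [hS'.Γ_eq, hB.Γ_eq], ?_, ?_⟩, hrep'⟩
      · intro γ hγ
        rw [hS'.χ_eq]
        exact hB.χ_un γ hγ
      · rw [hS'.R_eq]
        refine locv_le (Algebra.adjoin_le ?_) C.loc
        rintro f (hf | rfl)
        · exact hB.le hf
        · rw [← hS'.y_eq]
          exact hrep'.mem le_rfl
  obtain ⟨C', h1, h2, h3, h4⟩ := exists_changeChi C S'.χ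
    (fun γ hγ δ hδ => S'.χ_add γ (by rw [hS'.Γ_eq]; exact hγ) δ (by rw [hS'.Γ_eq]; exact hδ))
    hS'.χ_un
  refine ⟨B, S', hr, hS'1, hS', C', h1, h4, h3, h2, D, hD, hrep', ?_⟩
  obtain ⟨-, u, hu, δ, hδ, hδ0, a, ha, hy⟩ := hrep'
  have h5 := (hS'.χ_un δ hδ).inv
  rw [inv_div] at h5
  refine ⟨C'.Γ.zero_mem, u, ⟨by rw [h4]; exact hu.1, hu.2⟩, δ, by rw [h1]; exact hδ, hδ0,
    C.χ δ / S'.χ δ * a, by rw [h4]; exact C.R.mul_mem h5.1 ha, ?_⟩
  rw [C'.χ_zero, h3, h2, ← mul_assoc, mul_div_cancel₀ _ (S'.χ_ne δ (by rw [hS'.Γ_eq]; exact hδ)),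
    hy, C.χ_zero]

end Pool.Agent.LU3.Pr
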