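import Pool.Agent.Lib.LU3.Rows
import Pool.Agent.Lib.D2_h22.Pairs

/-!
# DefectTwo, core, row R6 in the form of `Rows.lean`
-/

set_option autoImplicit false

open Polynomial

namespace Pool.Agent.LU3

open Pool.Agent.H15JM (RVal)
open Pool.Agent.LU1

universe u

variable {k Ω : Type u} [Field k] [Field Ω] [Algebra k Ω] {v : RVal Ω} {r : ℕ}

/-- **Row R6.** -/
theorem row6 : Row6 k Ω v r := by
  intro p hp hcp _ h L₀ N _ S C hrat hL hN hΓS hvN hΓC hχ hy
  have hS : Pr.InFrame S C := Pr.InFrame.of_brat hrat hΓC.symm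
    (fun γ hγ => hχ γ (by rw [← hΓC]; exact hγ)) hy
  obtain ⟨B, S', hr, hS'1, hS', C', h1, h2, h3, h4, e, he, -, hrep⟩ :=
    Pr.exists_pair p hp h hL hS
  have hratB : BRat B := Pr.brat_reach hrat hr
  have hextB : Ext S B := hr.ext
  have hreach : TReach S B := by
    clear hratB hextB hS'1 hS' hrep
    induction hr with
    | refl => exact Relation.ReflTransGen.refl
    | tail _ h2 ih => exact Relation.ReflTransGen.tail ih (Or.inl h2)
  have hΓ' : S'.Γ = S.Γ := by rw [hS'.Γ_eq, hΓC]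
  have key : TReach S S' ∧ BRat S' ∧ FracIs S'.R L₀ := by
    rcases hS'1 with rfl | ⟨κ, hκ⟩
    · exact ⟨hreach, hratB, hextB.fracIs hL⟩
    · exact ⟨Relation.ReflTransGen.tail hreach (Or.inr ⟨κ, hκ⟩), Pr.brat_t0step hratB hκ,
        (hextB.trans hκ.ext).fracIs hL⟩
  exact ⟨S', C', key.1, h2, h3, e,
    { rat := key.2.1
      fracS := key.2.2
      fracC := by rw [h2]; exact hN
      ΓS := by rw [hΓ', hΓS]
      ΓN := hvN
      ΓC := by rw [h1, hS'.Γ_eq]
      χ_eq := h4
      le := by rw [h2]; exact hS'.le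
      e_pos := he
      rep := hrep }⟩

end Pool.Agent.LU3
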